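import Pool.Agent.Helper29.UG.Props
import Pool.Agent.Helper10.RC.Homs

/-!
# MP_b55b7c_an, packet UG-UD3: uniform tracial divisibility
-/

open scoped ENNReal NNReal InnerProductSpace ComplexOrder
open Filter Topology

attribute [-instance] CStarMatrix.instAlgebra CStarMatrix.instModule CStarMatrix.instSMul
  CStarMatrix.instMulAction CStarMatrix.instDistribMulAction

noncomputable section
namespace RC
universe u
namespace H93UG

section
variable {A : Type u} [CStarAlgebra A] [PartialOrder A] [StarOrderedRing A]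
variable {B : Type u} [CStarAlgebra B] [PartialOrder B] [StarOrderedRing B]

theorem nonneg_of (j : B →⋆ₐ[ℂ] A) (hj : Function.Injective j) (x : B) (h : 0 ≤ j x) : 0 ≤ x := by
  have hsa : IsSelfAdjoint x := by
    have h1 : star (j x) = j x := h.isSelfAdjoint
    rw [← map_star] at h1
    exact hj h1
  have h3 : j (cut x 0) = j x := by
    unfold cut
    rw [starHom_cfc j _ (by fun_prop) x hsa]
    exact cut_zero h
  have h4 : cut x 0 = x := hj h3
  rw [← h4]
  exact cut_nonneg x 0

theorem le_one_of (j : B →⋆ₐ[ℂ] A) (hj : Function.Injective j) (x : B) (h : j x ≤ 1) : x ≤ 1 := by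
  rw [← sub_nonneg] at h ⊢
  apply nonneg_of j hj
  rw [map_sub, map_one]
  exact h

theorem map_HD (j : B →⋆ₐ[ℂ] A) {L : ℕ} (e : B) (x : Fin L → B) :
    j (HD e x) = HD (j e) (fun i => j (x i)) := by
  unfold HD
  simp only [map_add, map_sum, map_mul, map_star, map_sub, map_one, apply_ite j, map_zero]

end

theorem ud3 (hConv : ConvP.{u}) (hTD : TD3P.{u}) (hMid : MidDP.{u}) : UD3P.{u} := by
  intro A _ _ _ B _ _ _ G _ _ α j hact hfix hsimp hnf hEH k η hη
  have hV : ∃ f ∈ {f : A | ∃ (e : A) (x : Fin (2 ^ k) → A), (∀ g, α g e = e) ∧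
      (∀ g i, α g (x i) = x i) ∧ 0 ≤ e ∧ e ≤ 1 ∧ (∀ i, ‖x i‖ ≤ 1) ∧ f = HD e x},
      ∀ φ : TState A, Inv α φ → (φ.φ f).re < η := by
    apply hConv A G α _ η
    · refine ⟨HD 0 (fun _ => 0), 0, fun _ => 0, ?_, ?_, le_rfl, zero_le_one, ?_, rfl⟩
      · intro g; exact map_zero _
      · intro g i; exact map_zero _
      · intro i; simp
    · intro φ hφ
      have h4 : (0 : ℝ) < 1 + 4 ^ k := by positivity
      obtain ⟨e, x, he0, he1, hx1, h1, h2⟩ := hTD A B G α j hact hfix hsimp hnf φ hφ k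
        (η / (2 * (1 + 4 ^ k))) (by positivity)
      refine ⟨HD (j e) (fun i => j (x i)), ⟨j e, fun i => j (x i), ?_, ?_, ?_, ?_, ?_, rfl⟩, ?_⟩
      · exact (hfix.2 (j e)).2 ⟨e, rfl⟩
      · intro g i
        exact (hfix.2 (j (x i))).2 ⟨x i, rfl⟩ g
      · exact map_nonneg j he0
      · rw [← sub_nonneg, ← map_one j, ← map_sub]
        exact map_nonneg j (sub_nonneg.2 he1)
      · intro i
        rw [NonUnitalStarAlgHom.norm_map j hfix.1]
        exact hx1 i
      · rw [← map_HD]
        unfold HD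
        rw [map_add, map_add, Complex.add_re, map_sum, map_sum, Complex.re_sum]
        have h3 : ∑ i : Fin (2 ^ k), (φ.φ (j (∑ l, star (e * star (x i) * x l * e -
            if i = l then e * e else 0) * (e * star (x i) * x l * e -
            if i = l then e * e else 0)))).re ≤ 4 ^ k * (η / (2 * (1 + 4 ^ k))) := by
          calc _ ≤ ∑ i : Fin (2 ^ k), (2 : ℝ) ^ k * (η / (2 * (1 + 4 ^ k))) := by
                apply Finset.sum_le_sum
                intro i _
                rw [map_sum, map_sum, Complex.re_sum]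
                calc _ ≤ ∑ l : Fin (2 ^ k), (η / (2 * (1 + 4 ^ k))) :=
                      Finset.sum_le_sum fun l _ => (h2 i l).le
                  _ = _ := by simp
            _ = 4 ^ k * (η / (2 * (1 + 4 ^ k))) := by
                rw [Finset.sum_const, Finset.card_univ, Fintype.card_fin, nsmul_eq_mul,
                  ← mul_assoc]
                congr 1
                push_cast
                rw [← mul_pow]
                norm_num
        have h5 : η / (2 * (1 + 4 ^ k)) + 4 ^ k * (η / (2 * (1 + 4 ^ k))) = η / 2 := by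
          field_simp
        linarith
    · rintro f₀ ⟨e₀, x₀, a1, a2, a3, a4, a5, rfl⟩ f₁ ⟨e₁, x₁, b1, b2, b3, b4, b5, rfl⟩ ε hε
      obtain ⟨e, x, c1, c2, c3, c4, c5, c6⟩ := hMid A G α hEH (2 ^ k) e₀ e₁ x₀ x₁ a1 b1 a2 b2 a3 a4
        b3 b4 a5 b5 ε hε
      exact ⟨HD e x, ⟨e, x, c1, c2, c3, c4, c5, rfl⟩, c6⟩
  obtain ⟨f, ⟨e, x, he, hx, he0, he1, hx1, rfl⟩, hf⟩ := hV
  have hej : ∃ b, j b = e := (hfix.2 e).1 he
  have hxj : ∀ i, ∃ b, j b = x i := fun i => (hfix.2 (x i)).1 (fun g => hx g i)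
  obtain ⟨e', rfl⟩ := hej
  choose x' hx' using hxj
  obtain rfl : (fun i => j (x' i)) = x := funext hx'
  refine ⟨e', x', nonneg_of j hfix.1 e' he0, le_one_of j hfix.1 e' he1, ?_, ?_⟩
  · intro i
    have := hx1 i
    rwa [NonUnitalStarAlgHom.norm_map j hfix.1] at this
  · intro φ hφ
    rw [map_HD]
    exact hf φ hφ

end H93UG

theorem ud3_93 (hConv : ConvP.{u}) (hTD : TD3P.{u}) (hMid : MidDP.{u}) : UD3P.{u} :=
  H93UG.ud3 hConv hTD hMid

end RC
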